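import Pool.Agent.W912.EC.Defs

/-! # the numbers of the construction -/

set_option autoImplicit false

namespace Pool.Agent.W632.EC

theorem aux1 (b m : ℕ) (hm : 2 * (2 * b + 8) ≤ m) : b * (m + 1) + 8 ≤ 2 ^ m := by
  obtain ⟨t, ht⟩ : ∃ t, t = m / 2 := ⟨_, rfl⟩
  have h1 : 2 * b + 8 ≤ t := by omega
  have h2 : m + 1 ≤ 2 * (t + 1) := by omega
  have h3 : t + 1 ≤ 2 ^ t := Nat.lt_two_pow_self
  have h4 : (t + 1) * (t + 1) ≤ 2 ^ m := by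
    calc (t + 1) * (t + 1) ≤ 2 ^ t * 2 ^ t := Nat.mul_le_mul h3 h3
      _ = 2 ^ (t + t) := by rw [pow_add]
      _ ≤ 2 ^ m := Nat.pow_le_pow_right (by norm_num) (by omega)
  calc b * (m + 1) + 8 ≤ b * (2 * (t + 1)) + 8 := by
        have := Nat.mul_le_mul_left b h2
        omega
    _ ≤ (2 * b + 8) * (t + 1) := by nlinarith
    _ ≤ (t + 1) * (t + 1) := Nat.mul_le_mul_right _ (by omega)
    _ ≤ 2 ^ m := h4

theorem num_core (c n K l : ℕ) (hK : K = 2 ^ (n / (c + 3))) (hl : l = K + n + 1) (h8 : n + 8 ≤ K)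
    (hc : 2 ^ (c + 2) + 9 ≤ K) :
    (2 ^ (l + 1) + 1) ^ (l ^ c) * (n + K + 8) ^ (4 * K + 4) * 2 ^ n ≤ 2 ^ 2 ^ n := by
  have hl2 : l ≤ 2 * K := by omega
  have e1 : 2 ^ (l + 1) + 1 ≤ 2 ^ (4 * K) := by
    calc 2 ^ (l + 1) + 1 ≤ 2 ^ (l + 1) + 2 ^ (l + 1) := by
          have : 1 ≤ 2 ^ (l + 1) := Nat.one_le_two_pow
          omega
      _ = 2 ^ (l + 2) := by ring
      _ ≤ 2 ^ (4 * K) := Nat.pow_le_pow_right (by norm_num) (by omega)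
  have e2 : (2 ^ (l + 1) + 1) ^ (l ^ c) ≤ 2 ^ (4 * K * (2 * K) ^ c) := by
    calc (2 ^ (l + 1) + 1) ^ (l ^ c) ≤ (2 ^ (4 * K)) ^ (l ^ c) := Nat.pow_le_pow_left e1 _
      _ ≤ (2 ^ (4 * K)) ^ ((2 * K) ^ c) :=
          Nat.pow_le_pow_right (by positivity) (Nat.pow_le_pow_left hl2 c)
      _ = 2 ^ (4 * K * (2 * K) ^ c) := by rw [← pow_mul]
  have hK1 : 1 ≤ K := by omega
  have e3 : 2 * K ≤ 2 ^ K := by
    obtain ⟨k, rfl⟩ : ∃ k, K = k + 1 := ⟨K - 1, by omega⟩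
    have : k + 1 ≤ 2 ^ k := Nat.lt_two_pow_self
    rw [pow_succ]; omega
  have e4 : (n + K + 8) ^ (4 * K + 4) ≤ 2 ^ (8 * K ^ 2) := by
    calc (n + K + 8) ^ (4 * K + 4) ≤ (2 ^ K) ^ (4 * K + 4) := Nat.pow_le_pow_left (by omega) _
      _ ≤ (2 ^ K) ^ (8 * K) := Nat.pow_le_pow_right (by positivity) (by omega)
      _ = 2 ^ (8 * K ^ 2) := by rw [← pow_mul]; ring_nf
  have e5 : (2 : ℕ) ^ n ≤ 2 ^ K := Nat.pow_le_pow_right (by norm_num) (by omega)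
  have hexp : 4 * K * (2 * K) ^ c + 8 * K ^ 2 + K ≤ 2 ^ n := by
    have a1 : 4 * K * (2 * K) ^ c ≤ 2 ^ (c + 2) * K ^ (c + 2) := by
      calc 4 * K * (2 * K) ^ c = 2 ^ (c + 2) * K ^ (c + 1) := by rw [mul_pow]; ring
        _ ≤ 2 ^ (c + 2) * K ^ (c + 2) :=
            Nat.mul_le_mul_left _ (Nat.pow_le_pow_right hK1 (by omega))
    have a2 : K ^ 2 ≤ K ^ (c + 2) := Nat.pow_le_pow_right hK1 (by omega)
    have a3 : K ≤ K ^ (c + 2) := by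
      calc K = K ^ 1 := (pow_one K).symm
        _ ≤ K ^ (c + 2) := Nat.pow_le_pow_right hK1 (by omega)
    calc 4 * K * (2 * K) ^ c + 8 * K ^ 2 + K
        ≤ 2 ^ (c + 2) * K ^ (c + 2) + 8 * K ^ (c + 2) + K ^ (c + 2) := by omega
      _ = (2 ^ (c + 2) + 9) * K ^ (c + 2) := by ring
      _ ≤ K * K ^ (c + 2) := Nat.mul_le_mul_right _ hc
      _ = K ^ (c + 3) := by ring
      _ = 2 ^ (n / (c + 3) * (c + 3)) := by rw [hK, ← pow_mul]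
      _ ≤ 2 ^ n := Nat.pow_le_pow_right (by norm_num) (Nat.div_mul_le_self _ _)
  calc (2 ^ (l + 1) + 1) ^ (l ^ c) * (n + K + 8) ^ (4 * K + 4) * 2 ^ n
      ≤ 2 ^ (4 * K * (2 * K) ^ c) * 2 ^ (8 * K ^ 2) * 2 ^ K :=
        Nat.mul_le_mul (Nat.mul_le_mul e2 e4) e5
    _ = 2 ^ (4 * K * (2 * K) ^ c + 8 * K ^ 2 + K) := by rw [pow_add, pow_add]
    _ ≤ 2 ^ 2 ^ n := Nat.pow_le_pow_right (by norm_num) hexp

theorem num_large (c n : ℕ) (hn : (c + 3) * (2 * (2 * (c + 3) + 8) + c + 6) ≤ n) :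
    n + 8 ≤ 2 ^ (n / (c + 3)) ∧ 2 ^ (c + 2) + 9 ≤ 2 ^ (n / (c + 3)) := by
  have hm : 2 * (2 * (c + 3) + 8) + c + 6 ≤ n / (c + 3) := by
    rw [Nat.le_div_iff_mul_le (by omega), mul_comm]
    exact hn
  constructor
  · have h1 := aux1 (c + 3) (n / (c + 3)) (by omega)
    have h2 : n < (c + 3) * (n / (c + 3) + 1) := Nat.lt_mul_div_succ n (by omega)
    omega
  · calc 2 ^ (c + 2) + 9 ≤ 2 ^ (c + 6) := by
          have : 1 ≤ 2 ^ c := Nat.one_le_two_pow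
          rw [pow_add, pow_add]; omega
      _ ≤ 2 ^ (n / (c + 3)) := Nat.pow_le_pow_right (by norm_num) (by omega)

theorem main : Pool.Agent.W912.EC.S_NUM := by
  intro c
  refine ⟨(c + 3) * (2 * (2 * (c + 3) + 8) + c + 6), ?_⟩
  intro n hn K l hK hl
  obtain ⟨h1, h2⟩ := num_large c n hn
  rw [← hK] at h1 h2
  unfold Pool.Agent.H622R2.Ckt.nC
  exact num_core c n K l hK hl h1 h2

end Pool.Agent.W632.EC
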